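import Pool.Agent.Lib.MP_14e7d7_nt.Main

/-!
# `2 ^ n - m` and `2 ^ n + m` both almost prime, `m` small (MP_14e7d7_nt)
-/

set_option autoImplicit false

namespace Pool.Agent.Results.MP_14e7d7_nt.AlmostPrimes

open ArithmeticFunction Pool.Agent.MP_14e7d7_nt

theorem forms (n m : ℕ) (hm : m < 2 ^ n) :
    ((2 ^ n - m : ℕ) : ℤ) * ((2 ^ n + m : ℕ) : ℤ) = PP n m := by
  unfold PP
  rw [Nat.cast_sub hm.le]
  push_cast
  ring

theorem Omega_bound {v n e k : ℕ} (hv : v ≠ 0) (hk : 1 ≤ k) (hle : v ≤ 2 ^ (n + 1))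
    (he : n ≤ e * k + k) (hn : 1667 * k ≤ n)
    (h : ∀ p : ℕ, p.Prime → p ∣ v → 2 ^ e < p ^ 833) : cardFactors v < 834 * k := by
  rw [cardFactors_apply]
  by_contra hcon
  push Not at hcon
  have h1 : (2 ^ e + 1) ^ v.primeFactorsList.length ≤
      (v.primeFactorsList.map (fun p => p ^ 833)).prod := by
    have h2 := List.pow_card_le_prod (l := v.primeFactorsList.map (fun p => p ^ 833))
      (n := 2 ^ e + 1) (by
      intro q hq
      rw [List.mem_map] at hq
      obtain ⟨p, hp, rfl⟩ := hq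
      exact h p (Nat.prime_of_mem_primeFactorsList hp) (Nat.dvd_of_mem_primeFactorsList hp))
    rwa [List.length_map] at h2
  have h3 : (v.primeFactorsList.map (fun p => p ^ 833)).prod = v ^ 833 := by
    have h4 := (List.prod_hom v.primeFactorsList (powMonoidHom 833 : ℕ →* ℕ))
    rw [Nat.prod_primeFactorsList hv] at h4
    exact h4
  rw [h3] at h1
  have h5 : v ^ 833 ≤ 2 ^ ((n + 1) * 833) := by
    rw [pow_mul]
    exact Nat.pow_le_pow_left hle _
  have h6 : (2 ^ e) ^ v.primeFactorsList.length < (2 ^ e + 1) ^ v.primeFactorsList.length :=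
    Nat.pow_lt_pow_left (Nat.lt_succ_self _) (by omega)
  have h7 : 2 ^ (e * v.primeFactorsList.length) < 2 ^ ((n + 1) * 833) := by
    rw [pow_mul]
    exact h6.trans_le (h1.trans h5)
  have h8 : e * v.primeFactorsList.length < (n + 1) * 833 :=
    (Nat.pow_lt_pow_iff_right (by norm_num)).mp h7
  have h9 : e * (834 * k) ≤ e * v.primeFactorsList.length := Nat.mul_le_mul_left _ hcon
  have h10 : e * (834 * k) = 834 * (e * k) := by ring
  omega

/-- For all `n` and `L` with `2 ^ 424 ≤ L < 2 ^ n`, more than `L ^ (1 / 5)` of the numbers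
`m = 1, …, L` have the property that `2 ^ n - m` and `2 ^ n + m` have no prime factor
`p ≤ L ^ (1 / 833)`. Hence for all `k ≥ 1` and `n ≥ 1667 k` there is an `m` with
`0 < m < 2 ^ (n / k)` such that `2 ^ n - m` and `2 ^ n + m` have less than `834 k` prime factors each
(with multiplicity). -/
theorem result :
    (∀ n L : ℕ, 2 ^ 424 ≤ L → L < 2 ^ n →
      L < {m : ℕ | 0 < m ∧ m ≤ L ∧ ∀ p : ℕ, p.Prime → (p ∣ 2 ^ n - m ∨ p ∣ 2 ^ n + m) →
        L < p ^ 833}.ncard ^ 5) ∧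
    ∀ k n : ℕ, 1 ≤ k → 1667 * k ≤ n → ∃ m : ℕ, 0 < m ∧ m ^ k < 2 ^ n ∧
      cardFactors (2 ^ n - m) < 834 * k ∧ cardFactors (2 ^ n + m) < 834 * k := by
  classical
  have hA : ∀ n L : ℕ, 2 ^ 424 ≤ L → L < 2 ^ n →
      L < {m : ℕ | 0 < m ∧ m ≤ L ∧ ∀ p : ℕ, p.Prime → (p ∣ 2 ^ n - m ∨ p ∣ 2 ^ n + m) →
        L < p ^ 833}.ncard ^ 5 := by
    intro n L hL hn
    have hL' : 30030 * (2 ^ 408 + 4) ≤ L := by
      refine le_trans ?_ hL
      have h1 : (2 : ℕ) ^ 424 = 2 ^ 408 * 65536 := by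
        rw [show (65536 : ℕ) = 2 ^ 16 by norm_num, ← pow_add]
      have h2 : 2 ^ 2 ≤ 2 ^ 408 := Nat.pow_le_pow_right (by norm_num) (by norm_num)
      rw [h1]
      generalize 2 ^ 408 = A at *
      omega
    have hn1 : 1 ≤ n := by
      by_contra h0
      have h1 : n = 0 := by omega
      rw [h1, pow_zero] at hn
      have h2 : 1 ≤ 2 ^ 424 := Nat.one_le_two_pow
      omega
    obtain ⟨T, hT, hT2⟩ := main n L hn1 hL'
    refine hT.trans_le (Nat.pow_le_pow_left ?_ _)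
    rw [← Set.ncard_coe_finset]
    refine Set.ncard_le_ncard ?_ ?_
    · intro x hx
      obtain ⟨h1, h2, h3⟩ := hT2 x (Finset.mem_coe.mp hx)
      refine ⟨by omega, h2, ?_⟩
      intro p hp hor
      apply h3 p hp
      rw [← forms n x (by omega)]
      rcases hor with h5 | h5
      · exact Dvd.dvd.mul_right (Int.natCast_dvd_natCast.mpr h5) _
      · exact Dvd.dvd.mul_left (Int.natCast_dvd_natCast.mpr h5) _
    · refine Set.Finite.subset (Set.finite_Iic L) ?_
      rintro x ⟨_, h2, _⟩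
      exact h2
  refine ⟨hA, ?_⟩
  intro k n hk hn
  obtain ⟨e, he⟩ : ∃ e, e = (n - 1) / k := ⟨_, rfl⟩
  have he1 : e * k ≤ n - 1 := by
    rw [he]
    exact Nat.div_mul_le_self _ _
  have he2 : n ≤ e * k + k := by
    have h1 := Nat.lt_div_mul_add (a := n - 1) (b := k) (by omega)
    rw [← he] at h1
    omega
  have he3 : 424 ≤ e := by
    rw [he, Nat.le_div_iff_mul_le (by omega)]
    omega
  have he4 : e < n := by
    have h1 : e * 1 ≤ e * k := Nat.mul_le_mul_left _ hk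
    omega
  have h1 := hA n (2 ^ e) (Nat.pow_le_pow_right (by norm_num) he3)
    (Nat.pow_lt_pow_right (by norm_num) he4)
  have hne : {m : ℕ | 0 < m ∧ m ≤ 2 ^ e ∧ ∀ p : ℕ, p.Prime →
      (p ∣ 2 ^ n - m ∨ p ∣ 2 ^ n + m) → 2 ^ e < p ^ 833}.Nonempty := by
    rw [Set.nonempty_iff_ne_empty]
    intro h0
    rw [h0, Set.ncard_empty, zero_pow (by omega)] at h1
    exact absurd h1 (Nat.not_lt_zero _)
  obtain ⟨m, hm0, hmL, hmp⟩ := hne
  have hlt : 2 ^ e < 2 ^ n := Nat.pow_lt_pow_right (by norm_num) he4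
  have hsucc : 2 ^ (n + 1) = 2 ^ n * 2 := pow_succ 2 n
  refine ⟨m, hm0, ?_, ?_, ?_⟩
  · calc m ^ k ≤ (2 ^ e) ^ k := Nat.pow_le_pow_left hmL k
      _ = 2 ^ (e * k) := (pow_mul _ _ _).symm
      _ < 2 ^ n := Nat.pow_lt_pow_right (by norm_num) (by omega)
  · exact Omega_bound (by omega) hk (by omega) he2 hn (fun p hp hd => hmp p hp (Or.inl hd))
  · exact Omega_bound (by omega) hk (by omega) he2 hn (fun p hp hd => hmp p hp (Or.inr hd))

end Pool.Agent.Results.MP_14e7d7_nt.AlmostPrimes
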