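import Mathlib

namespace Pool.Agent.Results.MP_14e7d7_nt.LogLowerBound

/-- `a n` is the least `m` with `0 ≤ m ≤ 2 ^ n` such that `2 ^ n - m` and `2 ^ n + m` are both
prime, and `a n = 0` if there is no such `m` (the infimum of the empty set of naturals is 0). -/
noncomputable def a (n : ℕ) : ℕ :=
  sInf {m : ℕ | m ≤ 2 ^ n ∧ Nat.Prime (2 ^ n - m) ∧ Nat.Prime (2 ^ n + m)}

/-- For every `K` there is `n ≤ 4 ^ (K + 2)` such that `2 ^ n + m` is composite for
all `m ≤ K`. -/
theorem main (K : ℕ) : ∃ n, n ≤ 4 ^ (K + 2) ∧ ∀ m ≤ K, ¬ Nat.Prime (2 ^ n + m) := by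
  set Q : ℕ := ∏ p ∈ (Finset.range (K + 3)).filter (fun p => p.Prime ∧ Odd p), p with hQ
  have hQdvd : Q ∣ primorial (K + 2) := by
    rw [hQ, primorial]
    apply Finset.prod_dvd_prod_of_subset
    intro p hp
    rw [Finset.mem_filter] at hp ⊢
    exact ⟨hp.1, hp.2.1⟩
  have hQle : Q ≤ 4 ^ (K + 2) :=
    le_trans (Nat.le_of_dvd (primorial_pos _) hQdvd) (primorial_le_four_pow _)
  have hcop : Nat.Coprime 2 Q := by
    rw [hQ]
    apply Nat.Coprime.prod_right
    intro p hp
    rw [Finset.mem_filter] at hp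
    exact Nat.coprime_two_left.2 hp.2.2
  have hQpos : 0 < Q := Nat.pos_of_dvd_of_pos hQdvd (primorial_pos _)
  have hphi : 0 < Nat.totient Q := Nat.totient_pos.2 hQpos
  refine ⟨1 + Nat.totient Q, ?_, ?_⟩
  · rcases Nat.lt_or_ge 1 Q with h1 | h1
    · have := Nat.totient_lt Q h1
      omega
    · have hQ1 : Q = 1 := by omega
      rw [hQ1, Nat.totient_one]
      have : 4 ^ 2 ≤ 4 ^ (K + 2) := Nat.pow_le_pow_right (by norm_num) (by omega)
      omega
  · intro m hm hprime
    set n : ℕ := 1 + Nat.totient Q with hn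
    have h4 : 4 ≤ 2 ^ n := by
      calc 4 = 2 ^ 2 := by norm_num
        _ ≤ 2 ^ n := Nat.pow_le_pow_right (by norm_num) (by omega)
    have h2dvd : 2 ∣ 2 ^ n := dvd_pow_self 2 (by omega)
    rcases Nat.even_or_odd m with he | ho
    · have h2m : 2 ∣ 2 ^ n + m := (Nat.dvd_add_right h2dvd).2 he.two_dvd
      have := (Nat.prime_dvd_prime_iff_eq Nat.prime_two hprime).1 h2m
      omega
    · have ho2 : Odd (m + 2) := by
        obtain ⟨c, hc⟩ := ho
        exact ⟨c + 1, by omega⟩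
      set p : ℕ := (m + 2).minFac with hp
      have hpp : Nat.Prime p := Nat.minFac_prime (by omega)
      have hpd : p ∣ m + 2 := Nat.minFac_dvd _
      have hpo : Odd p := ho2.of_dvd_nat hpd
      have hple : p ≤ m + 2 := Nat.le_of_dvd (by omega) hpd
      have hpQ : p ∣ Q := by
        rw [hQ]
        apply Finset.dvd_prod_of_mem
        rw [Finset.mem_filter, Finset.mem_range]
        exact ⟨by omega, hpp, hpo⟩
      have h1 : 2 ^ Nat.totient Q ≡ 1 [MOD p] := (Nat.ModEq.pow_totient hcop).of_dvd hpQ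
      have h2 : 2 ^ n ≡ 2 [MOD p] := by
        rw [hn, pow_add, pow_one]
        simpa using h1.mul_left 2
      have h3 : 2 ^ n + m ≡ 0 [MOD p] := by
        have h5 : 2 + m ≡ 0 [MOD p] := (Nat.modEq_zero_iff_dvd).2 (by rwa [add_comm])
        exact (h2.add_right m).trans h5
      have h6 : p ∣ 2 ^ n + m := (Nat.modEq_zero_iff_dvd).1 h3
      have := (Nat.prime_dvd_prime_iff_eq hpp hprime).1 h6
      omega

theorem result : {n : ℕ | a n = 0 ∨ n ≤ 4 ^ (a n + 1)}.Infinite := by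
  rw [Set.infinite_iff_exists_gt]
  intro N
  obtain ⟨n, hle, h⟩ := main (2 ^ N)
  refine ⟨n, ?_, ?_⟩
  · by_cases he : {m : ℕ | m ≤ 2 ^ n ∧ Nat.Prime (2 ^ n - m) ∧ Nat.Prime (2 ^ n + m)}.Nonempty
    · right
      have hmem := Nat.sInf_mem he
      have h1 : 2 ^ N < a n := by
        by_contra hcon
        push Not at hcon
        exact h (a n) hcon hmem.2.2
      calc n ≤ 4 ^ (2 ^ N + 2) := hle
        _ ≤ 4 ^ (a n + 1) := Nat.pow_le_pow_right (by norm_num) (by omega)
    · left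
      rw [Set.not_nonempty_iff_eq_empty] at he
      simp [a, he]
  · by_contra hcon
    push Not at hcon
    obtain ⟨p, hp, h1, h2⟩ := Nat.exists_prime_lt_and_le_two_mul (2 ^ n) (by positivity)
    have h3 : 2 ^ n ≤ 2 ^ N := Nat.pow_le_pow_right (by norm_num) hcon
    have h4 : 2 ^ n + (p - 2 ^ n) = p := by omega
    exact h (p - 2 ^ n) (by omega) (by rw [h4]; exact hp)

end Pool.Agent.Results.MP_14e7d7_nt.LogLowerBound
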